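import Mathlib

namespace Pool.Agent.Results.MP_e444d1_an.Never
open MeasureTheory Set Filter Topology Real

def CompletelyMonotone (m : ℝ → ℝ) : Prop :=
  ContDiffOn ℝ (⊤ : ℕ∞) m (Ioi 0) ∧ ∀ k : ℕ, ∀ t > 0, 0 ≤ (-1) ^ k * iteratedDeriv k m t

/-- Complete Bernstein functions on `(0, ∞)`. -/
def CBF (F : ℝ → ℝ) : Prop :=
  ∃ a b : ℝ, ∃ m : ℝ → ℝ, 0 ≤ a ∧ 0 ≤ b ∧ CompletelyMonotone m ∧
    IntegrableOn (fun t => min 1 t * m t) (Ioi 0) ∧
    ∀ x > 0, F x = a + b * x + ∫ t in Ioi 0, (1 - exp (-x * t)) * m t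

theorem result (p N D : ℝ) (hp : 1 < p) (hN : -1 < N) (hND : N < D) (hD : D ≤ 0) :
    ¬ ∃ F, CBF F ∧ ∀ n : ℕ, 1 ≤ n → F n = (p ^ n + N) / (p ^ n + D) := by
  rintro ⟨F, ⟨a, b, m, -, hb, ⟨hc, hm⟩, hi, hF⟩, hn⟩
  have m0 : ∀ t > 0, 0 ≤ m t := fun t ht => by simpa using hm 0 t ht
  have ma : AntitoneOn m (Ioi 0) := antitoneOn_of_deriv_nonpos (convex_Ioi 0) hc.continuousOn
    (by rw [interior_Ioi]; exact hc.differentiableOn (by simp))
    fun t ht => by simpa using hm 1 t (by simpa using ht)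
  have I : ∀ x > 0, IntegrableOn (fun t => (1 - exp (-x * t)) * m t) (Ioi 0) := fun x hx => by
    refine (hi.const_mul (1 + x)).mono' (((by fun_prop : Continuous fun t => 1 - exp (-x * t)
      ).continuousOn.mul hc.continuousOn).aestronglyMeasurable measurableSet_Ioi)
      (ae_restrict_of_forall_mem measurableSet_Ioi fun t (ht : 0 < t) => ?_)
    have h1 := exp_le_one_iff.2 (show -x * t ≤ 0 by nlinarith)
    have h2 := add_one_le_exp (-x * t)
    have := exp_pos (-x * t)
    rw [norm_of_nonneg (mul_nonneg (by linarith) (m0 t ht)), ← mul_assoc]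
    refine mul_le_mul_of_nonneg_right ?_ (m0 t ht)
    rcases le_total 1 t with h | h <;> simp only [h, min_eq_left, min_eq_right] <;> nlinarith
  have hpn : ∀ n : ℕ, 1 ≤ n → (1 + D / p) * p ^ n ≤ p ^ n + D := fun n h => by
    have : p ≤ p ^ n := le_self_pow₀ hp.le (by omega)
    have : D / p * p = D := by field_simp
    nlinarith [div_nonpos_of_nonpos_of_nonneg hD (by linarith : 0 ≤ p)]
  have hq : 0 < 1 + D / p := by
    have : -1 < D / p := by rw [lt_div_iff₀ (by linarith)]; linarith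
    linarith
  have up : ∀ n : ℕ, 1 ≤ n → 0 < F (n + 1) - F n ∧
      (F (n + 1) - F n) * p ^ n ≤ (D - N) / (1 + D / p) := fun n h => by
    have h1 := hpn n h
    have h2 : 0 < (1 + D / p) * p ^ n := by positivity
    have h3 : p ^ n < p ^ (n + 1) := pow_lt_pow_right₀ hp (by omega)
    have e : ∀ y, 0 < y + D → (y + N) / (y + D) = 1 - (D - N) / (y + D) := fun y hy => by
      field_simp; ring
    rw [← Nat.cast_add_one, hn (n + 1) (by omega), hn n h, e _ (by linarith), e _ (by linarith)]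
    have h4 : (D - N) / (p ^ (n + 1) + D) < (D - N) / (p ^ n + D) :=
      div_lt_div_of_pos_left (by linarith) (by linarith) (by linarith)
    have h5 : 0 < (D - N) / (p ^ (n + 1) + D) := div_pos (by linarith) (by linarith)
    have h6 : (D - N) / (p ^ n + D) * p ^ n ≤ (D - N) / (1 + D / p) := by
      rw [div_mul_eq_mul_div, div_le_div_iff₀ (by linarith) hq]
      nlinarith
    exact ⟨by linarith, by nlinarith [pow_pos (by linarith : 0 < p) n]⟩
  have df : ∀ n : ℕ, 1 ≤ n → F (n + 1) - F n =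
      b + ∫ t in Ioi 0, exp (-n * t) * (1 - exp (-t)) * m t := fun n h => by
    have : (0 : ℝ) < n := by exact_mod_cast h
    rw [hF _ (by positivity), hF _ this, add_sub_add_comm, ← integral_sub (I _ (by positivity))
      (I _ this)]
    congr 1
    · ring
    · refine setIntegral_congr_fun measurableSet_Ioi fun t _ => ?_
      rw [show -(n + 1 : ℝ) * t = -n * t + -t by ring, exp_add]
      ring
  have key : ∀ c r : ℝ, 1 < r → 0 < c → ¬ ∀ n : ℕ, 1 ≤ n → c * r ^ n ≤ (D - N) / (1 + D / p) := by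
    intro c r hr hc h
    obtain ⟨n, h1, h2⟩ := (((tendsto_pow_atTop_atTop_of_one_lt hr).const_mul_atTop hc).eventually
      (eventually_gt_atTop ((D - N) / (1 + D / p)))).and (eventually_ge_atTop 1) |>.exists
    exact (h n h2).not_gt h1
  have nn : ∀ n : ℕ, ∀ t > 0, 0 ≤ exp (-n * t) * (1 - exp (-t)) * m t := fun n t ht =>
    mul_nonneg (mul_nonneg (exp_pos _).le (sub_nonneg.2 (exp_le_one_iff.2 (by linarith)))) (m0 t ht)
  by_cases h0 : ∀ t > 0, m t = 0
  · have e : ∀ n : ℕ, 1 ≤ n → F (n + 1) - F n = b := fun n h => by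
      rw [df n h, setIntegral_eq_zero_of_forall_eq_zero fun t ht => by rw [h0 t ht, mul_zero],
        add_zero]
    exact key b p hp (e 1 le_rfl ▸ (up 1 le_rfl).1) fun n h => e n h ▸ (up n h).2
  push Not at h0
  obtain ⟨s, hs, hms⟩ := h0
  have hms := (m0 s hs).lt_of_ne' hms
  have hl := log_pos hp
  obtain ⟨ε, h1, h2, h3⟩ : ∃ ε, 0 < ε ∧ 2 * ε ≤ s ∧ 2 * ε < log p :=
    ⟨min (s / 2) (log p / 4), by positivity, by linarith [min_le_left (s / 2) (log p / 4)],
      by linarith [min_le_right (s / 2) (log p / 4)]⟩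
  have h4 : 0 < 1 - exp (-ε) := sub_pos.2 (exp_lt_one_iff.2 (by linarith))
  refine key ((1 - exp (-ε)) * m s * ε) (exp (-(2 * ε)) * p) ?_ (by positivity) fun n h =>
    le_trans ?_ (up n h).2
  · rw [← exp_log (by linarith : 0 < p), ← exp_add]
    exact one_lt_exp_iff.2 (by linarith)
  rw [mul_pow, ← mul_assoc, df n h]
  refine mul_le_mul_of_nonneg_right (le_add_of_nonneg_of_le hb ?_) (by positivity)
  have J : IntegrableOn (fun t => exp (-n * t) * (1 - exp (-t)) * m t) (Ioi 0) := by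
    have : (0 : ℝ) < n := by exact_mod_cast h
    refine ((I (n + 1) (by positivity)).sub (I _ this)).congr (ae_of_all _ fun t => ?_)
    simp only [Pi.sub_apply]
    rw [show -(n + 1 : ℝ) * t = -n * t + -t by ring, exp_add]
    ring
  have hs' : Ioc ε (2 * ε) ⊆ Ioi 0 := fun t ht => h1.trans ht.1
  refine le_trans ?_ (setIntegral_mono_set J (ae_restrict_of_forall_mem measurableSet_Ioi (nn n))
    hs'.eventuallyLE)
  refine le_trans (le_of_eq ?_) (setIntegral_ge_of_const_le_real (c := exp (-(2 * ε)) ^ n *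
    (1 - exp (-ε)) * m s) measurableSet_Ioc (by simp) (fun t ht => ?_) (J.mono_set hs'))
  · rw [Real.volume_real_Ioc_of_le (by linarith)]
    ring
  · rw [← exp_nat_mul]
    have := ma (hs' ht) hs (ht.2.trans h2)
    have := ht.1
    have := ht.2
    have : n * -(2 * ε) ≤ -n * t := by nlinarith [n.cast_nonneg (α := ℝ)]
    have : 0 ≤ 1 - exp (-t) := sub_nonneg.2 (exp_le_one_iff.2 (by linarith))
    gcongr

end Pool.Agent.Results.MP_e444d1_an.Never
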